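import Pool.Agent.W363.JQ.Stm

/-!
# Project JQ (MP_28f04c_an, helper363): task JQ-BU
-/

set_option autoImplicit false

open Filter Topology Set Metric

namespace Pool.Agent.W782.JQ

open Pool.Agent.W363.JQ

theorem rp_norm (s t : ℝ) : ‖rp s t‖ = Real.exp s := by
  unfold rp
  rw [Complex.norm_exp]
  congr 1
  simp

theorem rp_gt {s : ℝ} (hs : 0 < s) (t : ℝ) : 1 < ‖rp s t‖ := by
  rw [rp_norm]
  exact Real.one_lt_exp_iff.mpr hs

theorem rp_pow (s t : ℝ) (n : ℕ) : (rp s t) ^ n = rp (n * s) (n * t) := by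
  unfold rp
  rw [← Complex.exp_nat_mul]
  congr 1
  push_cast
  ring

theorem rp_add_int (s t : ℝ) (k : ℤ) : rp s (t + k) = rp s t := by
  unfold rp
  rw [show ((s : ℂ) + 2 * (Real.pi : ℂ) * ((t + k : ℝ) : ℂ) * Complex.I) =
    ((s : ℂ) + 2 * (Real.pi : ℂ) * (t : ℂ) * Complex.I) + k * (2 * Real.pi * Complex.I) by
      push_cast; ring]
  exact Complex.exp_periodic.int_mul k _

theorem rp_inj {s t t' : ℝ} (h : rp s t = rp s t') : ∃ k : ℤ, t' = t + k := by
  unfold rp at h
  obtain ⟨n, hn⟩ := Complex.exp_eq_exp_iff_exists_int.mp h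
  refine ⟨-n, ?_⟩
  have h1 : (2 * (Real.pi : ℂ) * Complex.I) * ((t' : ℂ) - (t - n)) = 0 := by
    linear_combination -hn
  have h2 : (2 * (Real.pi : ℂ) * Complex.I) ≠ 0 := by
    simp [Real.pi_ne_zero, Complex.I_ne_zero]
  have h3 := (mul_eq_zero.mp h1).resolve_left h2
  have h4 : (t' : ℂ) = ((t - n : ℝ) : ℂ) := by
    push_cast
    linear_combination h3
  have h5 : t' = t - n := by exact_mod_cast h4
  rw [h5]
  push_cast
  ring

theorem rp_cont (t : ℝ) : Continuous fun s : ℝ => rp s t := by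
  unfold rp
  fun_prop

theorem rp_step (D : ℕ) (hD : 1 ≤ D) (s t : ℝ) (w : ℂ) (h : w ^ D = rp s t) :
    ∃ j : ℕ, j < D ∧ w = rp (s / D) ((t + j) / D) := by
  have hD0 : (D : ℝ) ≠ 0 := by positivity
  have hDc : (D : ℂ) ≠ 0 := by exact_mod_cast hD0
  have hprim := Complex.isPrimitiveRoot_exp D (by omega)
  have hne : rp (s / D) (t / D) ≠ 0 := by
    unfold rp
    exact Complex.exp_ne_zero _
  have h1 : (w / rp (s / D) (t / D)) ^ D = 1 := by
    rw [div_pow, h, rp_pow, mul_div_cancel₀ _ hD0, mul_div_cancel₀ _ hD0]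
    apply div_self
    unfold rp
    exact Complex.exp_ne_zero _
  haveI : NeZero D := ⟨by omega⟩
  obtain ⟨j, hj, h2⟩ := hprim.eq_pow_of_pow_eq_one h1
  refine ⟨j, hj, ?_⟩
  have h3 : w = Complex.exp (2 * Real.pi * Complex.I / D) ^ j * rp (s / D) (t / D) := by
    rw [h2]
    field_simp
  rw [h3, ← Complex.exp_nat_mul]
  unfold rp
  rw [← Complex.exp_add]
  congr 1
  push_cast
  field_simp
  ring

/-- JQ-BU -/
theorem bu (_h1 : S_exn) (h2 : S_uniq) : S_bu := by
  intro f r Φ φ hB hEx hBo hC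
  set D := f.natDegree with hDdef
  have hD2 : 2 ≤ D := hB.deg
  have hDpos : (0 : ℝ) < D := by positivity
  have hr : 0 < r := hEx.1
  have hφJ : ∀ t, φ t ∈ JJ f := fun t => by rw [← hC.rng]; exact mem_range_self t
  have hper : ∀ (t : ℝ) (k : ℤ), φ (t + k) = φ t := by
    intro t k
    have h : Function.Periodic φ 1 := hC.per
    have := h.int_mul k t
    rwa [mul_one] at this
  have hf : ∀ s, 0 < s → ∀ t, f.eval (Φ (rp s t)) = Φ (rp (D * s) (D * t)) := by
    intro s hs t
    rw [hBo.conj _ (rp_gt hs t), rp_pow]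
  have hlim : ∀ t, Tendsto (fun s => Φ (rp s t)) (𝓝[>] 0) (𝓝 (φ t)) := by
    intro t
    rw [Metric.tendsto_nhds]
    intro ε hε
    obtain ⟨s₀, hs₀, h⟩ := hC.lim ε hε
    filter_upwards [Ioo_mem_nhdsGT hs₀] with s hs
    exact h s hs.1 hs.2 t
  constructor
  · rintro t t' htt ⟨k, hk⟩
    obtain ⟨s₀, hs₀, hs₀'⟩ := hC.lim r hr
    -- the two paths
    set γ : ℝ → ℝ → ℂ := fun a s => if s ≤ 0 then φ a else Φ (rp s a) with hγ
    have hpos : ∀ a s, 0 < s → γ a s = Φ (rp s a) := fun a s hs => if_neg (not_le.mpr hs)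
    have hzero : ∀ a, γ a 0 = φ a := fun a => if_pos le_rfl
    have hcont : ∀ a, ContinuousOn (γ a) (Ico 0 (s₀ / D)) := by
      intro a s hs
      rcases hs.1.eq_or_lt with h0 | h0
      · subst h0
        have h3 : Tendsto (γ a) (𝓝[>] 0) (𝓝 (γ a 0)) := by
          rw [hzero]
          refine (hlim a).congr' ?_
          filter_upwards [self_mem_nhdsWithin] with s hs
          exact (hpos a s hs).symm
        have h4 : ContinuousWithinAt (γ a) (Ioi 0) 0 := h3
        have h5 : ContinuousWithinAt (γ a) (Ici 0) 0 := by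
          rw [← Ioi_insert]
          exact h4.insert
        exact h5.mono Ico_subset_Ici_self
      · have h3 : ContinuousAt (fun s => Φ (rp s a)) s := by
          have h4 : ContinuousAt Φ (rp s a) := by
            refine (hBo.dif.continuousOn).continuousAt ?_
            exact (isOpen_lt continuous_const continuous_norm).mem_nhds (rp_gt h0 a)
          exact ContinuousAt.comp h4 (rp_cont a).continuousAt
        refine (h3.congr ?_).continuousWithinAt
        filter_upwards [lt_mem_nhds h0] with s' hs'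
        exact (hpos a s' hs').symm
    have hsame : ∀ s ∈ Ico 0 (s₀ / D), it f 1 (γ t s) = it f 1 (γ t' s) := by
      intro s hs
      show f.eval (γ t s) = f.eval (γ t' s)
      rcases hs.1.eq_or_lt with h0 | h0
      · rw [← h0, hzero, hzero, htt]
      · rw [hpos _ _ h0, hpos _ _ h0, hf _ h0, hf _ h0, hk, rp_add_int]
    have hnear : ∀ s ∈ Ico 0 (s₀ / D), ∃ x ∈ JJ f, dist (it f 1 (γ t s)) x < r := by
      intro s hs
      refine ⟨φ (D * t), hφJ _, ?_⟩
      show dist (f.eval (γ t s)) _ < r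
      rcases hs.1.eq_or_lt with h0 | h0
      · rw [← h0, hzero, hC.conj, dist_self]
        exact hr
      · rw [hpos _ _ h0, hf _ h0]
        refine hs₀' _ (by positivity) ?_ _
        have := hs.2
        rw [lt_div_iff₀ hDpos] at this
        linarith
    have hs1 : 0 < s₀ / D := by positivity
    have hkey := h2 f r hB hEx 1 (Ico 0 (s₀ / D)) (γ t) (γ t') isPreconnected_Ico (hcont t)
      (hcont t') hsame hnear 0 ⟨le_rfl, hs1⟩ (by rw [hzero, hzero, htt]) (s₀ / D / 2)
      ⟨by positivity, by linarith⟩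
    have hs2 : 0 < s₀ / D / 2 := by positivity
    rw [hpos _ _ hs2, hpos _ _ hs2] at hkey
    exact rp_inj (hBo.inj (rp_gt hs2 t) (rp_gt hs2 t') hkey)
  · intro z t hz
    have hz' : f.eval z = φ t := hz
    by_contra hcon
    push Not at hcon
    have hne : ∀ j : ℕ, φ ((t + j) / D) ≠ z := by
      intro j hj
      refine hcon _ hj j ?_
      rw [mul_div_cancel₀ _ hDpos.ne']
      rfl
    obtain ⟨j0, hj0, hmin⟩ := Finset.exists_min_image (Finset.range D)
      (fun j : ℕ => dist (φ ((t + j) / D)) z) ⟨0, Finset.mem_range.mpr (by omega)⟩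
    set ε := dist (φ ((t + j0) / D)) z with hε
    have hεpos : 0 < ε := dist_pos.mpr (hne j0)
    obtain ⟨g, hg1, hg2, hg3, hg4⟩ := hEx.2 (φ t) (hφJ t) (φ t) (mem_ball_self hr) z hz'
    have hgc : ContinuousAt g (φ t) :=
      (hg1.continuousOn).continuousAt (isOpen_ball.mem_nhds (mem_ball_self hr))
    have h3 : Tendsto (fun s => g (Φ (rp s t))) (𝓝[>] 0) (𝓝 z) := by
      have := hgc.tendsto.comp (hlim t)
      rw [hg2] at this
      exact this
    obtain ⟨s₀, hs₀, hs₀'⟩ := hC.lim (ε / 2) (by linarith)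
    have e1 : ∀ᶠ s in 𝓝[>] (0 : ℝ), dist (g (Φ (rp s t))) z < ε / 2 :=
      h3.eventually (ball_mem_nhds z (by linarith))
    have e2 : ∀ᶠ s in 𝓝[>] (0 : ℝ), Φ (rp s t) ∈ ball (φ t) r :=
      (hlim t).eventually (ball_mem_nhds _ hr)
    have e3 : ∀ᶠ s in 𝓝[>] (0 : ℝ), s ∈ Ioo 0 s₀ := Ioo_mem_nhdsGT hs₀
    obtain ⟨s, ⟨a1, a2⟩, a3⟩ := ((e1.and e2).and e3).exists
    have hK : g (Φ (rp s t)) ∈ (KK f)ᶜ := by
      intro hin
      have h4 := (hB.invK _).mpr hin
      rw [hg3 _ a2] at h4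
      have h5 : Φ (rp s t) ∈ (KK f)ᶜ := by
        rw [← hBo.img]
        exact ⟨_, rp_gt a3.1 t, rfl⟩
      exact h5 h4
    rw [← hBo.img] at hK
    obtain ⟨w, hw, hwe⟩ := hK
    have hw1 : 1 < ‖w‖ := hw
    have h4 : Φ (w ^ D) = Φ (rp s t) := by
      rw [← hBo.conj w hw1, hwe, hg3 _ a2]
    have h5 : w ^ D = rp s t := by
      refine hBo.inj ?_ (rp_gt a3.1 t) h4
      show 1 < ‖w ^ D‖
      rw [norm_pow]
      exact one_lt_pow₀ hw1 (by omega)
    obtain ⟨j, hj, hwj⟩ := rp_step D (by omega) s t w h5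
    have h6 : dist (Φ w) (φ ((t + j) / D)) < ε / 2 := by
      rw [hwj]
      refine hs₀' _ (by have := a3.1; positivity) ?_ _
      have h7 : s / D ≤ s := by
        have hs : 0 ≤ s := a3.1.le
        have hD1 : (1 : ℝ) ≤ D := by exact_mod_cast (show 1 ≤ D by omega)
        exact div_le_self hs hD1
      exact lt_of_le_of_lt h7 a3.2
    rw [hwe] at h6
    have h8 := hmin j (Finset.mem_range.mpr hj)
    have h9 : dist (φ ((t + j) / D)) z < ε := by
      calc dist (φ ((t + j) / D)) z ≤ dist (φ ((t + j) / D)) (g (Φ (rp s t))) +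
            dist (g (Φ (rp s t))) z := dist_triangle _ _ _
        _ < ε / 2 + ε / 2 := by
            rw [dist_comm (φ ((t + j) / D))]
            exact add_lt_add h6 a1
        _ = ε := by ring
    linarith

end Pool.Agent.W782.JQ
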