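import Pool.Agent.W363.JQ.Stm

/-!
# Project JQ (MP_28f04c_an, helper363): task JQ-GLUE
-/

set_option autoImplicit false

open Filter Topology Set Metric

namespace Pool.Agent.W782.JQ

open Pool.Agent.W363.JQ

theorem tr : S_tr := by
  intro A B hA hB h
  by_contra hcon
  unfold Tr at hcon
  push Not at hcon
  have h1 : ∀ n : ℕ, ∃ x ∈ A, ∃ y ∈ B,
      (∀ q ∈ A ∩ B, ((n : ℝ) + 1) * dist x y < dist x q + dist q y) ∧
        ((n : ℝ) + 1) * dist x y < 1 := by
    intro n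
    obtain ⟨x, hx, y, hy, h2, h3⟩ := hcon ((n : ℝ) + 1) (by positivity)
    exact ⟨x, hx, y, hy, h2, h3⟩
  choose x hx y hy h2 h3 using h1
  obtain ⟨q, hqA, φ, hφ, hlim⟩ := hA.tendsto_subseq hx
  have hd : Tendsto (fun n => dist (x (φ n)) (y (φ n))) atTop (𝓝 0) := by
    have h4 : Tendsto (fun n : ℕ => 1 / ((n : ℝ) + 1)) atTop (𝓝 0) :=
      tendsto_one_div_add_atTop_nhds_zero_nat
    refine squeeze_zero (fun n => dist_nonneg) (fun n => ?_) (h4.comp hφ.tendsto_atTop)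
    rw [Function.comp_apply, le_div_iff₀ (by positivity)]
    have := h3 (φ n)
    linarith
  have hy' : Tendsto (fun n => y (φ n)) atTop (𝓝 q) := by
    rw [tendsto_iff_dist_tendsto_zero] at hlim ⊢
    have h5 := hd.add hlim
    rw [add_zero] at h5
    refine squeeze_zero (fun n => dist_nonneg) (fun n => ?_) h5
    calc dist (y (φ n)) q ≤ dist (y (φ n)) (x (φ n)) + dist (x (φ n)) q := dist_triangle _ _ _
      _ = dist (x (φ n)) (y (φ n)) + dist ((x ∘ φ) n) q := by rw [dist_comm]; rfl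
  have hqB : q ∈ B := hB.isClosed.mem_of_tendsto hy' (Eventually.of_forall fun n => hy _)
  obtain ⟨C, hC, ρ, hρ, hLT⟩ := h q ⟨hqA, hqB⟩
  have e1 : ∀ᶠ n in atTop, dist (x (φ n)) q < ρ :=
    (tendsto_iff_dist_tendsto_zero.mp hlim).eventually (gt_mem_nhds hρ)
  have e2 : ∀ᶠ n in atTop, dist (y (φ n)) q < ρ :=
    (tendsto_iff_dist_tendsto_zero.mp hy').eventually (gt_mem_nhds hρ)
  obtain ⟨N, hN⟩ := exists_nat_ge (2 * C + 1)
  have e3 : ∀ᶠ n in atTop, N ≤ φ n := hφ.tendsto_atTop.eventually (eventually_ge_atTop N)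
  obtain ⟨n, ⟨a1, a2⟩, a3⟩ := ((e1.and e2).and e3).exists
  have b1 := hLT _ (hx (φ n)) a1 _ (hy (φ n)) a2
  have b2 := h2 (φ n) q ⟨hqA, hqB⟩
  have b3 : dist q (y (φ n)) ≤ dist (x (φ n)) q + dist (x (φ n)) (y (φ n)) := by
    rw [dist_comm (x (φ n)) q]
    exact dist_triangle _ _ _
  have b4 : 2 * C + 1 ≤ (φ n : ℝ) + 1 := by
    have : (N : ℝ) ≤ φ n := by exact_mod_cast a3
    linarith
  have b5 : (0 : ℝ) ≤ dist (x (φ n)) (y (φ n)) := dist_nonneg
  nlinarith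

theorem tr_mono {A B : Set ℂ} (h : Tr A B) : ∃ C : ℝ, 0 < C ∧ ∀ C' : ℝ, C ≤ C' →
    ∀ x ∈ A, ∀ y ∈ B,
    (∃ q ∈ A ∩ B, dist x q + dist q y ≤ C' * dist x y) ∨ 1 ≤ C' * dist x y := by
  obtain ⟨C, hC, h1⟩ := h
  refine ⟨C, hC, fun C' hC' x hx y hy => ?_⟩
  have h2 : C * dist x y ≤ C' * dist x y := mul_le_mul_of_nonneg_right hC' dist_nonneg
  rcases h1 x hx y hy with ⟨q, hq, h3⟩ | h3
  · exact Or.inl ⟨q, hq, h3.trans h2⟩
  · exact Or.inr (h3.trans h2)

theorem lip_of (J : Set ℂ) (n : ℕ) (A : Fin n → Set ℂ) (h : Fin n → ℂ → ℂ) (hJ : IsCompact J)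
    (hm : ∀ i, ∀ x ∈ A i, h i x ∈ J) (L : ℝ)
    (hL : ∀ i, ∀ x ∈ A i, ∀ y ∈ A i, dist (h i x) (h i y) ≤ L * dist x y)
    (hag : ∀ i j, ∀ x ∈ A i ∩ A j, h i x = h j x)
    (hT : ∀ i j, i < j → Tr (A i) (A j)) :
    ∃ M : ℝ, 1 ≤ M ∧ ∀ i j, ∀ x ∈ A i, ∀ y ∈ A j, dist (h i x) (h j y) ≤ M * dist x y := by
  have h1 : ∀ i j : Fin n, ∃ C : ℝ, 0 < C ∧ (i < j → ∀ C' : ℝ, C ≤ C' → ∀ x ∈ A i, ∀ y ∈ A j,
      (∃ q ∈ A i ∩ A j, dist x q + dist q y ≤ C' * dist x y) ∨ 1 ≤ C' * dist x y) := by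
    intro i j
    by_cases hij : i < j
    · obtain ⟨C, hC, h2⟩ := tr_mono (hT i j hij)
      exact ⟨C, hC, fun _ => h2⟩
    · exact ⟨1, one_pos, fun h => absurd h hij⟩
  choose C hC hCT using h1
  set C0 : ℝ := ∑ i, ∑ j, C i j with hC0
  have hC0nn : 0 ≤ C0 := Finset.sum_nonneg fun i _ => Finset.sum_nonneg fun j _ => (hC i j).le
  have hCle : ∀ i j, C i j ≤ C0 := by
    intro i j
    calc C i j ≤ ∑ j, C i j :=
          Finset.single_le_sum (f := fun j => C i j) (fun j _ => (hC i j).le) (Finset.mem_univ j)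
      _ ≤ C0 := Finset.single_le_sum (f := fun i => ∑ j, C i j)
          (fun i _ => Finset.sum_nonneg fun j _ => (hC i j).le) (Finset.mem_univ i)
  have hL' : ∀ i, ∀ x ∈ A i, ∀ y ∈ A i, dist (h i x) (h i y) ≤ |L| * dist x y := fun i x hx y hy =>
    (hL i x hx y hy).trans (mul_le_mul_of_nonneg_right (le_abs_self L) dist_nonneg)
  have key : ∀ i j, i < j → ∀ x ∈ A i, ∀ y ∈ A j,
      dist (h i x) (h j y) ≤ (|L| * C0 + diam J * C0) * dist x y := by
    intro i j hij x hx y hy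
    have hd0 : (0 : ℝ) ≤ dist x y := dist_nonneg
    have hdJ : 0 ≤ diam J := diam_nonneg
    have p1 : 0 ≤ |L| * C0 * dist x y := by positivity
    have p2 : 0 ≤ diam J * C0 * dist x y := by positivity
    rcases hCT i j hij C0 (hCle i j) x hx y hy with ⟨q, hq, h3⟩ | h3
    · calc dist (h i x) (h j y) ≤ dist (h i x) (h i q) + dist (h i q) (h j y) :=
            dist_triangle _ _ _
        _ = dist (h i x) (h i q) + dist (h j q) (h j y) := by rw [hag i j q hq]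
        _ ≤ |L| * dist x q + |L| * dist q y :=
            add_le_add (hL' i x hx q hq.1) (hL' j q hq.2 y hy)
        _ = |L| * (dist x q + dist q y) := by ring
        _ ≤ |L| * (C0 * dist x y) := mul_le_mul_of_nonneg_left h3 (abs_nonneg _)
        _ ≤ (|L| * C0 + diam J * C0) * dist x y := by nlinarith
    · calc dist (h i x) (h j y) ≤ diam J :=
            dist_le_diam_of_mem hJ.isBounded (hm i x hx) (hm j y hy)
        _ ≤ diam J * (C0 * dist x y) := le_mul_of_one_le_right hdJ h3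
        _ ≤ (|L| * C0 + diam J * C0) * dist x y := by nlinarith
  have hMnn : 0 ≤ |L| * C0 + diam J * C0 := by
    have hdJ : 0 ≤ diam J := diam_nonneg
    positivity
  refine ⟨1 + |L| + (|L| * C0 + diam J * C0), by nlinarith [abs_nonneg L], ?_⟩
  intro i j x hx y hy
  have hd0 : (0 : ℝ) ≤ dist x y := dist_nonneg
  have hLn := abs_nonneg L
  rcases lt_trichotomy i j with hij | hij | hij
  · refine (key i j hij x hx y hy).trans ?_
    nlinarith
  · subst hij
    refine (hL' i x hx y hy).trans ?_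
    nlinarith
  · have := key j i hij y hy x hx
    rw [dist_comm (h j y), dist_comm y x] at this
    refine this.trans ?_
    nlinarith

theorem glue : S_glue := by
  intro J n A A' h g hJ hA hA' hmh hmg hgh hhg hL hag hag' hT hT'
  obtain ⟨L, hL⟩ := hL
  have hAJ : ∀ i, A i ⊆ J := fun i x hx => by rw [← hA]; exact mem_iUnion.mpr ⟨i, hx⟩
  have hAJ' : ∀ i, A' i ⊆ J := fun i x hx => by rw [← hA']; exact mem_iUnion.mpr ⟨i, hx⟩
  obtain ⟨M, hM, hlip⟩ := lip_of J n A h hJ (fun i x hx => hAJ' i (hmh i hx)) L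
    (fun i => (hL i).1) hag hT
  obtain ⟨M', hM', hlip'⟩ := lip_of J n A' g hJ (fun i x hx => hAJ i (hmg i hx)) L
    (fun i => (hL i).2) hag' hT'
  have hi : ∀ x : J, ∃ i, (x : ℂ) ∈ A i := fun x => mem_iUnion.mp (hA.symm.subset x.2)
  have hi' : ∀ x : J, ∃ i, (x : ℂ) ∈ A' i := fun x => mem_iUnion.mp (hA'.symm.subset x.2)
  choose I hI using hi
  choose I' hI' using hi'
  let Ψ : J → J := fun x => ⟨h (I x) x, hAJ' _ (hmh _ (hI x))⟩
  let Ψ' : J → J := fun x => ⟨g (I' x) x, hAJ _ (hmg _ (hI' x))⟩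
  have e1 : ∀ (i : Fin n) (x : J), (x : ℂ) ∈ A i → ((Ψ x : J) : ℂ) = h i x := fun i x hx =>
    hag _ _ _ ⟨hI x, hx⟩
  have e2 : ∀ (i : Fin n) (x : J), (x : ℂ) ∈ A' i → ((Ψ' x : J) : ℂ) = g i x := fun i x hx =>
    hag' _ _ _ ⟨hI' x, hx⟩
  have l1 : ∀ x, Ψ' (Ψ x) = x := by
    intro x
    apply Subtype.ext
    have hm : ((Ψ x : J) : ℂ) ∈ A' (I x) := hmh _ (hI x)
    rw [e2 (I x) (Ψ x) hm]
    exact hgh _ _ (hI x)
  have l2 : ∀ x, Ψ (Ψ' x) = x := by
    intro x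
    apply Subtype.ext
    have hm : ((Ψ' x : J) : ℂ) ∈ A (I' x) := hmg _ (hI' x)
    rw [e1 (I' x) (Ψ' x) hm]
    exact hhg _ _ (hI' x)
  have d1 : ∀ x y : J, dist (Ψ x) (Ψ y) ≤ M * dist x y := fun x y =>
    hlip _ _ _ (hI x) _ (hI y)
  have d2 : ∀ x y : J, dist (Ψ' x) (Ψ' y) ≤ M' * dist x y := fun x y =>
    hlip' _ _ _ (hI' x) _ (hI' y)
  have c1 : Continuous Ψ :=
    (LipschitzWith.of_dist_le_mul (K := ⟨M, by linarith⟩) d1).continuous
  have c2 : Continuous Ψ' :=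
    (LipschitzWith.of_dist_le_mul (K := ⟨M', by linarith⟩) d2).continuous
  refine ⟨⟨⟨Ψ, Ψ', l1, l2⟩, c1, c2⟩, max M M', le_max_of_le_left hM, ?_, ?_⟩
  · intro x y
    have hd0 : (0 : ℝ) ≤ dist x y := dist_nonneg
    refine ⟨(d1 x y).trans (mul_le_mul_of_nonneg_right (le_max_left _ _) hd0), ?_⟩
    have := d2 (Ψ x) (Ψ y)
    rw [l1, l1] at this
    exact this.trans (mul_le_mul_of_nonneg_right (le_max_right _ _) dist_nonneg)
  · intro i x hx
    exact e1 i x hx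

/-- iterates of a homeomorphism -/
noncomputable def itH {J : Set ℂ} (Ψ : J ≃ₜ J) : ℕ → (J ≃ₜ J)
  | 0 => Homeomorph.refl J
  | m + 1 => (itH Ψ m).trans Ψ

theorem itH_apply {J : Set ℂ} (Ψ : J ≃ₜ J) (m : ℕ) (x : J) :
    itH Ψ m x = (fun y : J => Ψ y)^[m] x := by
  induction m with
  | zero => rfl
  | succ m ih =>
    rw [Function.iterate_succ_apply', ← ih]
    rfl

theorem fin0 : S_fin := by
  intro J Ψ L hL hlip hfree hfin
  have hbl : ∀ m : ℕ, ∀ x y : J, dist (itH Ψ m x) (itH Ψ m y) ≤ L ^ m * dist x y ∧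
      dist x y ≤ L ^ m * dist (itH Ψ m x) (itH Ψ m y) := by
    intro m
    induction m with
    | zero =>
      intro x y
      rw [pow_zero, one_mul, one_mul]
      exact ⟨le_rfl, le_rfl⟩
    | succ m ih =>
      intro x y
      obtain ⟨h1, h2⟩ := ih x y
      obtain ⟨h3, h4⟩ := hlip (itH Ψ m x) (itH Ψ m y)
      have e : ∀ z, itH Ψ (m + 1) z = Ψ (itH Ψ m z) := fun z => rfl
      rw [e, e]
      have hLm : (0 : ℝ) ≤ L ^ m := by positivity
      constructor
      · calc dist (Ψ (itH Ψ m x)) (Ψ (itH Ψ m y)) ≤ L * dist (itH Ψ m x) (itH Ψ m y) := h3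
          _ ≤ L * (L ^ m * dist x y) := mul_le_mul_of_nonneg_left h1 (by linarith)
          _ = L ^ (m + 1) * dist x y := by ring
      · calc dist x y ≤ L ^ m * dist (itH Ψ m x) (itH Ψ m y) := h2
          _ ≤ L ^ m * (L * dist (Ψ (itH Ψ m x)) (Ψ (itH Ψ m y))) :=
              mul_le_mul_of_nonneg_left h4 hLm
          _ = L ^ (m + 1) * dist (Ψ (itH Ψ m x)) (Ψ (itH Ψ m y)) := by ring
  have hinj : Function.Injective (itH Ψ) := by
    have key : ∀ m n : ℕ, m < n → itH Ψ m ≠ itH Ψ n := by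
      intro m n hmn he
      obtain ⟨x, hx⟩ := hfree (n - m) (by omega)
      apply hx
      have h1 : itH Ψ m x = itH Ψ n x := by rw [he]
      rw [itH_apply, itH_apply, show n = m + (n - m) by omega, Function.iterate_add_apply] at h1
      have h2 : Function.Injective (fun y : J => Ψ y)^[m] :=
        Function.Injective.iterate Ψ.injective m
      have h3 := h2 h1
      exact h3.symm
    intro m n he
    rcases lt_trichotomy m n with h | h | h
    · exact absurd he (key m n h)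
    · exact h
    · exact absurd he.symm (key n m h)
  refine Set.infinite_of_injective_forall_mem hinj ?_ hfin
  intro m
  have hM : (1 : ℝ) ≤ L ^ m := one_le_pow₀ hL
  have hM0 : (0 : ℝ) < L ^ m := by linarith
  refine ⟨fun t => (L ^ m) ^ 2 * t, by simp, ?_, by fun_prop, ?_, ?_⟩
  · intro a _ b _ hab
    exact mul_lt_mul_of_pos_left hab (by positivity)
  · exact Tendsto.const_mul_atTop (by positivity) tendsto_id
  · intro a x y hya
    have hpos : 0 < dist y a := dist_pos.mpr hya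
    obtain ⟨h1, -⟩ := hbl m x a
    obtain ⟨-, h2⟩ := hbl m y a
    have hxa : (0 : ℝ) ≤ dist x a := dist_nonneg
    calc dist (itH Ψ m x) (itH Ψ m a) ≤ L ^ m * dist x a := h1
      _ = L ^ m * (dist x a / dist y a) * dist y a := by
          field_simp
      _ ≤ L ^ m * (dist x a / dist y a) * (L ^ m * dist (itH Ψ m y) (itH Ψ m a)) :=
          mul_le_mul_of_nonneg_left h2 (by positivity)
      _ = (L ^ m) ^ 2 * (dist x a / dist y a) * dist (itH Ψ m y) (itH Ψ m a) := by ring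

end Pool.Agent.W782.JQ
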