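import Pool.Agent.W363.JQ.Stm

/-!
# Project JQ (MP_28f04c_an, helper363): task JQ-MAPS
-/

set_option autoImplicit false

open Filter Topology Set Metric

namespace Pool.Agent.W782.JQ

open Pool.Agent.W363.JQ

/-- a polynomial is Lipschitz on a compact set -/
theorem poly_lip (F : Polynomial ℂ) (J : Set ℂ) (hJ : IsCompact J) : ∃ L : ℝ, 0 ≤ L ∧
    ∀ x ∈ J, ∀ y ∈ J, dist (F.eval x) (F.eval y) ≤ L * dist x y := by
  obtain ⟨R, hR⟩ := hJ.isBounded.subset_closedBall 0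
  obtain ⟨C, hC⟩ := (isCompact_closedBall (0 : ℂ) R).exists_bound_of_continuousOn
    (f := fun z => F.derivative.eval z) F.derivative.continuous.continuousOn
  refine ⟨|C|, abs_nonneg _, fun x hx y hy => ?_⟩
  rw [dist_eq_norm, dist_eq_norm]
  refine (convex_closedBall (0 : ℂ) R).norm_image_sub_le_of_norm_deriv_le (𝕜 := ℂ)
    (f := fun z => F.eval z) (fun z _ => F.differentiableAt) (fun z hz => ?_) (hR hy) (hR hx)
  rw [F.deriv]
  exact (hC z hz).trans (le_abs_self C)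

theorem maps : S_maps := by
  intro F r φ α β ψ₀ ψ₁ H P D s₁ s₂ p₁ p₂ hD hs₁ hs₂ hp₁ hp₂
  have hD3 : (3 : ℝ) ≤ D := by
    rw [hD]
    exact_mod_cast H.deg
  have hD0 : (0 : ℝ) < D := by linarith
  have hDne : D ≠ 0 := hD0.ne'
  set l : ℝ := β - α with hl
  have hl0 : 0 < l := by rw [hl]; linarith [H.ab]
  have hlD : l / D * D = l := div_mul_cancel₀ _ hDne
  have hlDpos : 0 < l / D := by positivity
  have hlDle : l / D ≤ l := by
    rw [div_le_iff₀ hD0]
    nlinarith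
  have hlDD : l / D / D * D = l / D := div_mul_cancel₀ _ hDne
  have hlDD' : l / D / D ≤ l / D := by
    rw [div_le_iff₀ hD0]
    nlinarith
  have hlDD0 : 0 ≤ l / D / D := by positivity
  have hs₁' : s₁ = α + (l / D - l / D / D) := by rw [hs₁, sub_div]
  have hp₂' : p₂ = β - (l / D - l / D / D) := by rw [hp₂, sub_div]
  have hper : ∀ (t : ℝ) (k : ℤ), φ (t + k) = φ t := by
    intro t k
    have h : Function.Periodic φ 1 := H.per
    have := h.int_mul k t
    rwa [mul_one] at this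
  obtain ⟨ka, hka⟩ := H.fixα α rfl
  obtain ⟨kb, hkb⟩ := H.fixβ β rfl
  rw [← hD] at hka hkb
  have f1 : ∀ v, F.eval (φ v) = φ (α + D * (v - α)) := by
    intro v
    rw [H.conj, ← hD, ← hper (α + D * (v - α)) ka]
    congr 1
    linear_combination hka
  have f2 : ∀ v, F.eval (φ v) = φ (β - D * (β - v)) := by
    intro v
    rw [H.conj, ← hD, ← hper (β - D * (β - v)) kb]
    congr 1
    linear_combination hkb
  have q0 : ∀ t ∈ Icc α β, ψ₀ (φ t) = φ (α + (t - α) / D) := by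
    intro t ht
    rw [hD]
    exact P.eq0 t ht
  have q1 : ∀ t ∈ Icc α β, ψ₁ (φ t) = φ (β - (β - t) / D) := by
    intro t ht
    rw [hD]
    exact P.eq1 t ht
  -- the second map
  have g2 : ∀ t ∈ Icc s₁ s₂, ∃ w ∈ Icc α β, ∃ w1 ∈ Icc α β, F.eval (F.eval (φ t)) = φ w ∧
      ψ₀ (φ w) = φ w1 ∧ ψ₁ (φ w1) = φ (p₁ + (t - s₁)) := by
    intro t ht
    have hw : D * D * (t - s₁) = D * D * (t - α) - D * l + l := by
      rw [hs₁']
      linear_combination (-(D : ℝ)) * hlD + hlD + D * hlDD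
    have hts : D * (t - s₁) ≤ l / D := by
      have h1 : t - s₁ ≤ l / D / D := by
        have := ht.2
        rw [hs₂] at this
        rw [hs₁']
        linarith
      nlinarith
    have hts2 : D * D * (t - s₁) ≤ l := by nlinarith
    have hts0 : 0 ≤ t - s₁ := by linarith [ht.1]
    refine ⟨α + D * D * (t - s₁), ⟨by nlinarith [mul_nonneg hD0.le hD0.le], by linarith⟩,
      α + D * (t - s₁), ⟨by nlinarith, by linarith⟩, ?_, ?_, ?_⟩
    · rw [f1, f2]
      congr 1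
      linear_combination -hw
    · rw [q0 _ ⟨by nlinarith [mul_nonneg hD0.le hD0.le], by linarith⟩]
      congr 1
      field_simp
      ring
    · rw [q1 _ ⟨by nlinarith, by linarith⟩]
      congr 1
      rw [hp₁]
      field_simp
      ring
  have g5 : ∀ t ∈ Icc p₁ p₂, ∃ w ∈ Icc α β, ∃ w1 ∈ Icc α β, F.eval (F.eval (φ t)) = φ w ∧
      ψ₁ (φ w) = φ w1 ∧ ψ₀ (φ w1) = φ (s₁ + (t - p₁)) := by
    intro t ht
    have hw : D * D * (t - p₁) = D * l - D * D * (β - t) := by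
      rw [hp₁]
      linear_combination (D : ℝ) * hlD
    have hts : D * (t - p₁) ≤ l / D := by
      have h1 : t - p₁ ≤ l / D / D := by
        have := ht.2
        rw [hp₂'] at this
        rw [hp₁]
        linarith
      nlinarith
    have hts2 : D * D * (t - p₁) ≤ l := by nlinarith
    have hts0 : 0 ≤ t - p₁ := by linarith [ht.1]
    have hp1a : α ≤ p₁ := by rw [hp₁]; linarith
    refine ⟨α + D * D * (t - p₁), ⟨by nlinarith [mul_nonneg hD0.le hD0.le], by linarith⟩,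
      p₁ + D * (t - p₁), ⟨by nlinarith, by rw [hp₁] at hts ⊢; linarith⟩, ?_, ?_, ?_⟩
    · rw [f2, f1]
      congr 1
      linear_combination -hw
    · rw [q1 _ ⟨by nlinarith [mul_nonneg hD0.le hD0.le], by linarith⟩]
      congr 1
      rw [hp₁]
      field_simp
      ring
    · rw [q0 _ ⟨by nlinarith, by rw [hp₁] at hts ⊢; linarith⟩]
      congr 1
      rw [hs₁, hp₁]
      field_simp
      ring
  obtain ⟨LF, hLF0, hLF⟩ := poly_lip F (JJ F) H.bas.jcpt
  have hφJ : ∀ t, φ t ∈ JJ F := fun t => by rw [← H.rng]; exact mem_range_self t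
  have hr : 0 < r := H.ex.1
  have ball0 : ∀ w ∈ Icc α β, φ w ∈ ball (φ α) r := fun w hw => by
    rw [mem_ball]; linarith [H.nearα w hw]
  have ball1 : ∀ w ∈ Icc α β, φ w ∈ ball (φ β) r := fun w hw => by
    rw [mem_ball]; linarith [H.nearβ w hw]
  refine ⟨fun t _ => f1 t, ?_, ?_, ?_, ?_, fun t _ => f2 t, 1 + LF + LF * LF,
    by nlinarith, ?_, ?_, ?_, ?_, ?_⟩
  · intro t ht
    obtain ⟨w, hw, w1, hw1, e1, e2, e3⟩ := g2 t ht
    rw [e1, e2, e3]
  · intro t ht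
    exact q1 t ⟨by have := ht.1; rw [hs₂] at this; linarith, ht.2⟩
  · intro t ht
    exact q0 t ⟨ht.1, by have := ht.2; rw [hp₁] at this; linarith⟩
  · intro t ht
    obtain ⟨w, hw, w1, hw1, e1, e2, e3⟩ := g5 t ht
    rw [e1, e2, e3]
  · intro x hx y hy
    have hd0 : (0 : ℝ) ≤ dist x y := dist_nonneg
    refine (hLF x hx y hy).trans ?_
    nlinarith [mul_nonneg (mul_nonneg hLF0 hLF0) hd0]
  · rintro x ⟨w, hw, rfl⟩ y ⟨w', hw', rfl⟩
    have hd0 : (0 : ℝ) ≤ dist (φ w) (φ w') := dist_nonneg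
    refine (P.lip0 _ (ball0 w hw) _ (ball0 w' hw')).trans ?_
    nlinarith [mul_nonneg (mul_nonneg hLF0 hLF0) hd0, mul_nonneg hLF0 hd0]
  · rintro x ⟨w, hw, rfl⟩ y ⟨w', hw', rfl⟩
    have hd0 : (0 : ℝ) ≤ dist (φ w) (φ w') := dist_nonneg
    refine (P.lip1 _ (ball1 w hw) _ (ball1 w' hw')).trans ?_
    nlinarith [mul_nonneg (mul_nonneg hLF0 hLF0) hd0, mul_nonneg hLF0 hd0]
  · rintro x ⟨t, ht, rfl⟩ y ⟨t', ht', rfl⟩
    obtain ⟨w, hw, w1, hw1, e1, e2, e3⟩ := g2 t ht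
    obtain ⟨w', hw', w1', hw1', e1', e2', e3'⟩ := g2 t' ht'
    have h1 : dist (F.eval (F.eval (φ t))) (F.eval (F.eval (φ t'))) ≤
        LF * (LF * dist (φ t) (φ t')) := by
      refine (hLF _ ?_ _ ?_).trans (mul_le_mul_of_nonneg_left (hLF _ (hφJ t) _ (hφJ t')) hLF0)
      · rw [H.conj]; exact hφJ _
      · rw [H.conj]; exact hφJ _
    have h2 : dist (ψ₀ (F.eval (F.eval (φ t)))) (ψ₀ (F.eval (F.eval (φ t')))) ≤
        dist (F.eval (F.eval (φ t))) (F.eval (F.eval (φ t'))) / 2 := by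
      apply P.lip0
      · rw [e1]; exact ball0 w hw
      · rw [e1']; exact ball0 w' hw'
    have h3 : dist (ψ₁ (ψ₀ (F.eval (F.eval (φ t))))) (ψ₁ (ψ₀ (F.eval (F.eval (φ t'))))) ≤
        dist (ψ₀ (F.eval (F.eval (φ t)))) (ψ₀ (F.eval (F.eval (φ t')))) / 2 := by
      apply P.lip1
      · rw [e1, e2]; exact ball1 w1 hw1
      · rw [e1', e2']; exact ball1 w1' hw1'
    have hd0 : (0 : ℝ) ≤ dist (φ t) (φ t') := dist_nonneg
    nlinarith [mul_nonneg (mul_nonneg hLF0 hLF0) hd0, mul_nonneg hLF0 hd0]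
  · rintro x ⟨t, ht, rfl⟩ y ⟨t', ht', rfl⟩
    obtain ⟨w, hw, w1, hw1, e1, e2, e3⟩ := g5 t ht
    obtain ⟨w', hw', w1', hw1', e1', e2', e3'⟩ := g5 t' ht'
    have h1 : dist (F.eval (F.eval (φ t))) (F.eval (F.eval (φ t'))) ≤
        LF * (LF * dist (φ t) (φ t')) := by
      refine (hLF _ ?_ _ ?_).trans (mul_le_mul_of_nonneg_left (hLF _ (hφJ t) _ (hφJ t')) hLF0)
      · rw [H.conj]; exact hφJ _
      · rw [H.conj]; exact hφJ _
    have h2 : dist (ψ₁ (F.eval (F.eval (φ t)))) (ψ₁ (F.eval (F.eval (φ t')))) ≤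
        dist (F.eval (F.eval (φ t))) (F.eval (F.eval (φ t'))) / 2 := by
      apply P.lip1
      · rw [e1]; exact ball1 w hw
      · rw [e1']; exact ball1 w' hw'
    have h3 : dist (ψ₀ (ψ₁ (F.eval (F.eval (φ t))))) (ψ₀ (ψ₁ (F.eval (F.eval (φ t'))))) ≤
        dist (ψ₁ (F.eval (F.eval (φ t)))) (ψ₁ (F.eval (F.eval (φ t')))) / 2 := by
      apply P.lip0
      · rw [e1, e2]; exact ball0 w1 hw1
      · rw [e1', e2']; exact ball0 w1' hw1'
    have hd0 : (0 : ℝ) ≤ dist (φ t) (φ t') := dist_nonneg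
    nlinarith [mul_nonneg (mul_nonneg hLF0 hLF0) hd0, mul_nonneg hLF0 hd0]

end Pool.Agent.W782.JQ
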